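import Pool.Agent.H5.OR.Targets3

/-!
# Row HE of ors_modules: equivalence of the relators
-/

set_option autoImplicit false

open scoped Classical

namespace Pool.Agent.H86.ORS

open ORg

/-- the relator in a group -/
def rg {G : Type} [Group G] (x y : G) (k : ℕ) (p q : ℤ) : G :=
  x ^ k * y ^ p * (x ^ k)⁻¹ * (y ^ q)⁻¹

/-- the same for the centre `x ^ (±1)`, `y ^ (±1)`, up to conjugation and inversion -/
theorem rg_one {G : Type} [Group G] (x y : G) (k : ℕ) (p q p' q' u : ℤ)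
    (hu : u = 1 ∨ u = -1) (h : pm p q p' q') :
    ∃ g, g * rg x (y ^ u) k p q * g⁻¹ = rg x y k p' q' ∨
      g * rg x (y ^ u) k p q * g⁻¹ = (rg x y k p' q')⁻¹ := by
  obtain ⟨K, hK⟩ : ∃ K : G, K = x ^ k := ⟨_, rfl⟩
  unfold rg
  rw [← hK]
  rcases hu with rfl | rfl <;> rcases h with ⟨rfl, rfl⟩ | ⟨rfl, rfl⟩
  · exact ⟨1, Or.inl (by group)⟩
  · exact ⟨y ^ (-q), Or.inr (by group)⟩
  · exact ⟨y ^ q', Or.inr (by group)⟩
  · exact ⟨1, Or.inl (by group)⟩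

theorem rg_two {G : Type} [Group G] (x y : G) (k : ℕ) (p q p' q' u : ℤ)
    (hu : u = 1 ∨ u = -1) (h : pm q p p' q') :
    ∃ g, g * rg (x ^ (-1 : ℤ)) (y ^ u) k p q * g⁻¹ = rg x y k p' q' ∨
      g * rg (x ^ (-1 : ℤ)) (y ^ u) k p q * g⁻¹ = (rg x y k p' q')⁻¹ := by
  obtain ⟨K, hK⟩ : ∃ K : G, K = x ^ k := ⟨_, rfl⟩
  have hK' : (x ^ (-1 : ℤ)) ^ k = K⁻¹ := by rw [hK, zpow_neg_one, inv_pow]
  unfold rg
  rw [hK', ← hK]
  rcases hu with rfl | rfl <;> rcases h with ⟨rfl, rfl⟩ | ⟨rfl, rfl⟩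
  · exact ⟨K, Or.inr (by group)⟩
  · exact ⟨y ^ (-p) * K, Or.inl (by group)⟩
  · exact ⟨y ^ q' * K, Or.inl (by group)⟩
  · exact ⟨K, Or.inr (by group)⟩

/-- commutators -/
theorem comm_four {G : Type} [Group G] (P K : G) (s t : ℤ) (hs : s = 1 ∨ s = -1)
    (ht : t = 1 ∨ t = -1) :
    ∃ g, g * (P ^ s * K ^ t * (P ^ s)⁻¹ * (K ^ t)⁻¹) * g⁻¹ = K * P * K⁻¹ * P⁻¹ ∨
      g * (P ^ s * K ^ t * (P ^ s)⁻¹ * (K ^ t)⁻¹) * g⁻¹ = (K * P * K⁻¹ * P⁻¹)⁻¹ := by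
  rcases hs with rfl | rfl <;> rcases ht with rfl | rfl
  · exact ⟨1, Or.inr (by group)⟩
  · exact ⟨K, Or.inl (by group)⟩
  · exact ⟨P, Or.inl (by group)⟩
  · exact ⟨K * P, Or.inr (by group)⟩

theorem rg_swap {G : Type} [Group G] (x y : G) (k k' : ℕ) (p p' u v : ℤ)
    (hu : u = 1 ∨ u = -1) (hv : v = 1 ∨ v = -1) (h1 : |p| = k') (h2 : |p'| = k) :
    ∃ g, g * rg (y ^ u) (x ^ v) k p p * g⁻¹ = rg x y k' p' p' ∨
      g * rg (y ^ u) (x ^ v) k p p * g⁻¹ = (rg x y k' p' p')⁻¹ := by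
  obtain ⟨a, ha, hak⟩ : ∃ a : ℤ, (a = 1 ∨ a = -1) ∧ (k : ℤ) = p' * a := by
    rcases abs_choice p' with h | h
    · exact ⟨1, Or.inl rfl, by rw [← h2, h]; ring⟩
    · exact ⟨-1, Or.inr rfl, by rw [← h2, h]; ring⟩
  obtain ⟨b, hb, hbk⟩ : ∃ b : ℤ, (b = 1 ∨ b = -1) ∧ p = k' * b := by
    rcases abs_choice p with h | h
    · exact ⟨1, Or.inl rfl, by rw [← h1, h]; ring⟩
    · exact ⟨-1, Or.inr rfl, by rw [← h1, h]; ring⟩
  obtain ⟨g, hg⟩ := comm_four (y ^ p') (x ^ k') (a * u) (b * v)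
    (by rcases ha with rfl | rfl <;> rcases hu with rfl | rfl <;> simp)
    (by rcases hb with rfl | rfl <;> rcases hv with rfl | rfl <;> simp)
  have e1 : (y ^ u) ^ k = (y ^ p') ^ (a * u) := by
    rw [← zpow_natCast, ← zpow_mul, ← zpow_mul, hak]
    congr 1
    ring
  have e2 : (x ^ v) ^ p = (x ^ k') ^ (b * v) := by
    rw [← zpow_natCast, ← zpow_mul, ← zpow_mul, hbk]
    congr 1
    ring
  refine ⟨g, ?_⟩
  unfold rg
  rw [e1, e2]
  exact hg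

theorem rg_key {G : Type} [Group G] (A : Bool → G) (τ : Bool ≃ Bool) (e : Bool → ℤ) (k : ℕ)
    (p q : ℤ) (k' : ℕ) (p' q' : ℤ) (he : ∀ i, e i = 1 ∨ e i = -1)
    (h : Ex τ e k p q k' p' q') :
    ∃ g, g * rg (A (τ true) ^ e true) (A (τ false) ^ e false) k p q * g⁻¹ =
        rg (A true) (A false) k' p' q' ∨
      g * rg (A (τ true) ^ e true) (A (τ false) ^ e false) k p q * g⁻¹ =
        (rg (A true) (A false) k' p' q')⁻¹ := by
  rcases h with ⟨rfl, rfl, ⟨h1, h2⟩ | ⟨h1, h2⟩⟩ | ⟨rfl, rfl, rfl, h1, h2⟩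
  · rw [h1, zpow_one]
    exact rg_one (A true) (A false) k p q p' q' (e false) (he false) h2
  · rw [h1]
    exact rg_two (A true) (A false) k p q p' q' (e false) (he false) h2
  · rw [Equiv.swap_apply_left, Equiv.swap_apply_right]
    exact rg_swap (A true) (A false) k k' p p' (e true) (e false) (he true) (he false) h1 h2

theorem subW_relK {X : Bool → Type} (w : ∀ i, FreeGroup (X i)) (k : ℕ) (p q : ℤ) :
    subW w (relK k p q) =
      rg (FreeGroup.map (fun x => (Sum.inl ⟨true, x⟩ : (Σ i, X i) ⊕ Empty)) (w true))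
        (FreeGroup.map (fun x => (Sum.inl ⟨false, x⟩ : (Σ i, X i) ⊕ Empty)) (w false)) k p q := by
  unfold relK rg
  rw [map_mul, map_mul, map_mul, map_inv, map_inv, map_pow, map_zpow, map_zpow]
  unfold subW
  rw [FreeGroup.lift_apply_of, FreeGroup.lift_apply_of]

theorem map_rg {G H : Type} [Group G] [Group H] (f : G →* H) (x y : G) (k : ℕ) (p q : ℤ) :
    f (rg x y k p q) = rg (f x) (f y) k p q := by
  unfold rg
  rw [map_mul, map_mul, map_mul, map_inv, map_inv, map_pow, map_zpow, map_zpow]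

theorem pf_HE (TG : T_TG) : T_HE := by
  intro X Z X' Z' w w' k p q k' p' q' τ e hZ he hα hEx
  obtain ⟨ez⟩ := hZ
  choose α hα using hα
  obtain ⟨θ₀, hθ₀⟩ := TG Bool Bool X Z X' Z' τ α ez
  obtain ⟨A, hA⟩ : ∃ A : Bool → FreeGroup ((Σ i, X' i ⊕ Z' i) ⊕ Empty), ∀ i, A i =
      FreeGroup.map (fun x : X' i ⊕ Z' i => (Sum.inl ⟨i, x⟩ : (Σ i, X' i ⊕ Z' i) ⊕ Empty))
        (fl (w' i)) := ⟨_, fun _ => rfl⟩
  have h1 : ∀ i, θ₀ (FreeGroup.map (fun z : X i ⊕ Z i =>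
      (Sum.inl ⟨i, z⟩ : (Σ i, X i ⊕ Z i) ⊕ Empty)) (fl (w i))) = A (τ i) ^ e i := by
    intro i
    rw [hθ₀ i (w i), hα i, map_zpow, map_zpow, hA]
  have h2 : θ₀ (subW (X := fun i => X i ⊕ Z i) (fun i => fl (w i)) (relK k p q)) =
      rg (A (τ true) ^ e true) (A (τ false) ^ e false) k p q := by
    rw [subW_relK, ← h1, ← h1]
    exact map_rg θ₀.toMonoidHom _ _ k p q
  have h3 : subW (X := fun i => X' i ⊕ Z' i) (fun i => fl (w' i)) (relK k' p' q') =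
      rg (A true) (A false) k' p' q' := by
    rw [subW_relK, hA, hA]
  obtain ⟨g, hg⟩ := rg_key A τ e k p q k' p' q' he hEx
  refine ⟨θ₀.trans (MulAut.conj g), ?_⟩
  rw [MulEquiv.trans_apply, h2, h3, MulAut.conj_apply]
  exact hg

end Pool.Agent.H86.ORS
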