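import Pool.Agent.H5.OR.Targets3

/-!
# Row LO of ors_modules: free groups of rank one
-/

set_option autoImplicit false

open scoped Classical

namespace Pool.Agent.H86.ORS

open ORg

/-- the elements of a free group of rank one -/
theorem rank_one {X : Type} [Subsingleton X] (x : X) (g : FreeGroup X) :
    ∃ n : ℤ, g = FreeGroup.of x ^ n := by
  induction g using FreeGroup.induction_on with
  | C1 => exact ⟨0, by simp⟩
  | of y => exact ⟨1, by rw [Subsingleton.elim y x]; simp⟩
  | inv_of y _ => exact ⟨-1, by rw [Subsingleton.elim y x]; simp⟩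
  | mul g h ihg ihh =>
    obtain ⟨m, rfl⟩ := ihg
    obtain ⟨n, rfl⟩ := ihh
    exact ⟨m + n, by rw [zpow_add]⟩

theorem root_form {X : Type} [Subsingleton X] {w : FreeGroup X} (hw : Root w) :
    ∃ (x : X) (n : ℤ), n * n = 1 ∧ w = FreeGroup.of x ^ n := by
  rcases isEmpty_or_nonempty X with h | ⟨⟨x⟩⟩
  · exfalso
    have h1 : (1 : FreeGroup X) ^ (0 : ℤ) = w := Subsingleton.elim _ _
    rcases hw 1 0 h1 with h2 | h2 <;> omega
  · obtain ⟨n, hn⟩ := rank_one x w
    refine ⟨x, n, ?_, hn⟩
    rcases hw (FreeGroup.of x) n hn.symm with h | h <;> rw [h] <;> norm_num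

theorem pf_LO : T_LO := by
  intro X X' _ _ w w' e hw hw' he
  obtain ⟨x, n, hn, rfl⟩ := root_form hw
  obtain ⟨x', n', hn', rfl⟩ := root_form hw'
  have he2 : e * e = 1 := by rcases he with h | h <;> rw [h] <;> norm_num
  obtain ⟨s, hs⟩ : ∃ s : ℤ, s = n * n' * e := ⟨_, rfl⟩
  have hss : s * s = 1 := by
    rw [hs]
    calc n * n' * e * (n * n' * e) = (n * n) * (n' * n') * (e * e) := by ring
      _ = 1 := by rw [hn, hn', he2]; norm_num
  let f : FreeGroup X →* FreeGroup X' := FreeGroup.lift fun _ => FreeGroup.of x' ^ s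
  let g : FreeGroup X' →* FreeGroup X := FreeGroup.lift fun _ => FreeGroup.of x ^ s
  have hfg : g.comp f = MonoidHom.id _ := by
    apply FreeGroup.ext_hom
    intro y
    rw [MonoidHom.comp_apply, MonoidHom.id_apply, FreeGroup.lift_apply_of, map_zpow,
      FreeGroup.lift_apply_of, ← zpow_mul, hss, zpow_one, Subsingleton.elim y x]
  have hgf : f.comp g = MonoidHom.id _ := by
    apply FreeGroup.ext_hom
    intro y
    rw [MonoidHom.comp_apply, MonoidHom.id_apply, FreeGroup.lift_apply_of, map_zpow,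
      FreeGroup.lift_apply_of, ← zpow_mul, hss, zpow_one, Subsingleton.elim y x']
  refine ⟨MonoidHom.toMulEquiv f g hfg hgf, ?_⟩
  show f (FreeGroup.of x ^ n) = (FreeGroup.of x' ^ n') ^ e
  rw [map_zpow, FreeGroup.lift_apply_of, ← zpow_mul, ← zpow_mul]
  congr 1
  rw [hs]
  calc n * n' * e * n = (n * n) * (n' * e) := by ring
    _ = n' * e := by rw [hn, one_mul]

end Pool.Agent.H86.ORS
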